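import Pool.Agent.X177.Hyp14.Main

/-!
# The homology of Vietoris-Rips complexes of hypercube graphs is not always multiplicity-free

`MP_d0402e_co`, Q1, is answered in the negative: for every even `n ≥ 14` the representation of the
hyperoctahedral group on `H_i(X^{n,n-2}; K)`, `i = 2 ^ (n - 3) - 1`, is not multiplicity-free
(`K` any field of characteristic zero). The smallest case is `H_2047(X^{14,12})`.

The dimension of this homology group is at least `2 ^ 2 ^ (n - 7)`, which is larger than the order
`2 ^ n n!` of the group, and a multiplicity-free representation is cyclic. The homology classes are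
the fundamental classes of the cross-polytopes on self-complementary codes
`{x : x_3 + ... + x_n = 0, x_1 + x_2 + x_5 + x_6 + F(x_7 + x_8, ..., x_7 + x_n) = 0}` of minimum
distance two, `F` an arbitrary Boolean function: each of them has a facet which is a maximal
simplex of the complex.
-/

set_option autoImplicit false

open Pool.Agent.X177.Hyp14 Module

namespace Pool.Agent.Results.MP_d0402e_co.NotMultiplicityFree

theorem result (K : Type*) [Field K] [CharZero K] :
    ¬ MultiplicityFree (homologyRep K 14 12 2047) ∧
    ∀ n : ℕ, 14 ≤ n → Even n →
      ¬ MultiplicityFree (homologyRep K n (n - 2) (2 ^ (n - 3) - 1)) ∧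
      2 ^ (2 ^ (n - 7)) ≤ finrank K (Homology K n (n - 2) (2 ^ (n - 3) - 1)) := by
  refine ⟨?_, fun n hn he => main K n hn he⟩
  exact (main K 14 le_rfl (by decide)).1

end Pool.Agent.Results.MP_d0402e_co.NotMultiplicityFree
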